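import Pool.Agent.R403.RS.Degree

/-!
# MP_d028d5_al: the relative rho-sigma bound fails

For every infinite set `π` of primes with `2, 3 ∉ π` and `7 ∈ π` there are finite groups `G` with
`σ_π(G) ≤ 2` and `|ρ_π(G)|` arbitrarily large.
-/

open scoped BigOperators Matrix
open Representation

noncomputable section

namespace Pool.Agent.Results.MP_d028d5_al.RelativeRhoSigma

open Pool.Agent.R403.RS

/-- `n` is the degree of an irreducible complex character of `G`. -/
def IsDeg (G : Type) [Group G] (n : ℕ) : Prop :=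
  ∃ (V : Type) (_ : AddCommGroup V) (_ : Module ℂ V) (_ : FiniteDimensional ℂ V)
    (ρ : Representation ℂ G V), ρ.IsIrreducible ∧ Module.finrank ℂ V = n

/-- `n` is a `π`-number. -/
def IsPiNumber (π : Set ℕ) (n : ℕ) : Prop := 0 < n ∧ ∀ q : ℕ, q.Prime → q ∣ n → q ∈ π

/-- `ρ_π(G)`. -/
def rhoPi (π : Set ℕ) (G : Type) [Group G] : Set ℕ :=
  {q | q.Prime ∧ ∃ n, IsDeg G n ∧ IsPiNumber π n ∧ q ∣ n}

/-- `σ_π(G)`. -/
def sigmaPi (π : Set ℕ) (G : Type) [Group G] : ℕ :=
  sSup {m | ∃ n, IsDeg G n ∧ IsPiNumber π n ∧ n.primeFactors.card = m}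

lemma rhoPi_subset (π : Set ℕ) (G : Type) [Group G] [Finite G] :
    rhoPi π G ⊆ (Nat.card G).primeFactors := by
  rintro q ⟨hq, n, ⟨V, _, _, _, ρ, hirr, rfl⟩, -, hqn⟩
  rw [Finset.mem_coe, Nat.mem_primeFactors]
  exact ⟨hq, hqn.trans (frob_dvd ρ hirr), Nat.card_pos.ne'⟩

lemma isDeg_one (G : Type) [Group G] : IsDeg G 1 := by
  refine ⟨ℂ, inferInstance, inferInstance, inferInstance, Representation.trivial ℂ G ℂ, ?_, ?_⟩
  · refine isIrreducible_of _ fun W _ hW => ?_
    exact (eq_bot_or_eq_top W).resolve_left hW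
  · exact Module.finrank_self ℂ

lemma exists_group (π : Set ℕ) (hπ : ∀ q ∈ π, q.Prime) (hinf : π.Infinite) (h2 : 2 ∉ π)
    (h3 : 3 ∉ π) (h7 : 7 ∈ π) (k : ℕ) :
    ∃ (G : Type) (_ : Group G) (_ : Finite G),
      (∀ n, IsDeg G n → IsPiNumber π n → n.primeFactors.card ≤ 2) ∧
        sigmaPi π G ≤ 2 ∧ (rhoPi π G).Finite ∧ k ≤ (rhoPi π G).ncard := by
  classical
  have hinf' : (π \ {7}).Infinite := hinf.sdiff (Set.finite_singleton 7)
  let e := hinf'.natEmbedding
  let ι : II k → ℕ := fun i => (Fintype.equivFin (II k) i : ℕ)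
  have hι : Function.Injective ι := fun a b h => (Fintype.equivFin (II k)).injective (Fin.ext h)
  let p : II k → ℕ := fun i => (e (ι i) : ℕ)
  have hpπ : ∀ i, p i ∈ π := fun i => (e (ι i)).2.1
  have hp7 : ∀ i, p i ≠ 7 := fun i => (e (ι i)).2.2
  have hp : ∀ i, (p i).Prime := fun i => hπ _ (hpπ i)
  have hp5 : ∀ i, 5 ≤ p i := by
    intro i
    have a1 := (hp i).two_le
    have a2 : p i ≠ 2 := fun h => h2 (h ▸ hpπ i)
    have a3 : p i ≠ 3 := fun h => h3 (h ▸ hpπ i)
    have a4 : p i ≠ 4 := fun h => by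
      have := hp i
      rw [h] at this
      norm_num at this
    omega
  have hinj : Function.Injective p := fun a b h => hι (e.injective (Subtype.ext h))
  haveI : ∀ i, NeZero (p i) := fun i => ⟨(hp i).ne_zero⟩
  refine ⟨GG (EE p) (HH p), inferInstance, inferInstance, ?_⟩
  have hbound : ∀ n, IsDeg (GG (EE p) (HH p)) n → IsPiNumber π n → n.primeFactors.card ≤ 2 := by
    rintro n ⟨V, _, _, _, ρ, hirr, rfl⟩ ⟨hpos, hn⟩
    refine degree_bound hp hp5 hp7 hinj ρ hirr ?_
    have c2 : Nat.Coprime (Module.finrank ℂ V) 2 :=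
      ((Nat.Prime.coprime_iff_not_dvd Nat.prime_two).mpr fun h =>
        h2 (hn 2 Nat.prime_two h)).symm
    have c3 : Nat.Coprime (Module.finrank ℂ V) 3 :=
      ((Nat.Prime.coprime_iff_not_dvd Nat.prime_three).mpr fun h =>
        h3 (hn 3 Nat.prime_three h)).symm
    exact Nat.Coprime.mul_right c2 c3
  have hfin : (rhoPi π (GG (EE p) (HH p))).Finite :=
    (Finset.finite_toSet _).subset (rhoPi_subset π _)
  refine ⟨hbound, ?_, hfin, ?_⟩
  · refine csSup_le ⟨_, 1, isDeg_one _, ⟨one_pos, ?_⟩, rfl⟩ ?_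
    · intro q hq hq1
      exact absurd (Nat.dvd_one.mp hq1) hq.one_lt.ne'
    · rintro m ⟨n, hn, hn', rfl⟩
      exact hbound n hn hn'
  · have hsub : Set.range p ⊆ rhoPi π (GG (EE p) (HH p)) := by
      rintro _ ⟨i, rfl⟩
      refine ⟨hp i, (stab (H := HH p) (lam p i)).index, ?_, ?_, dvd_stab_index i⟩
      · exact ⟨Orb (H := HH p) (lam p i) → ℂ, inferInstance, inferInstance, inferInstance,
          mono (lam p i), mono_irr (lam p i), finrank_mono (lam p i)⟩
      · have hd := stab_index_dvd (p := p) i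
        have hne : p i * 7 ^ k ≠ 0 := mul_ne_zero (hp i).ne_zero (by positivity)
        refine ⟨Nat.pos_of_ne_zero fun h0 => ?_, ?_⟩
        · rw [h0, zero_dvd_iff] at hd
          exact hne hd
        · intro q hq hqd
          rcases (Nat.Prime.dvd_mul hq).mp (hqd.trans hd) with h | h
          · rw [(Nat.prime_dvd_prime_iff_eq hq (hp i)).mp h]
            exact hpπ i
          · rw [(Nat.prime_dvd_prime_iff_eq hq (by norm_num)).mp (hq.dvd_of_dvd_pow h)]
            exact h7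
    have h1 := Set.ncard_le_ncard hsub hfin
    have h4 : (Set.range p).ncard = 2 ^ k := by
      rw [← Set.image_univ, Set.ncard_image_of_injective _ hinj, Set.ncard_univ]
      simp
    rw [h4] at h1
    exact (Nat.lt_two_pow_self (n := k)).le.trans h1

/-- **Q1 (a) and (b) have negative answers.** Let `π` be an infinite set of primes with
`2, 3 ∉ π` and `7 ∈ π`, for example the set of all primes `≥ 5`.

* For every `k` there is a finite group `G` all of whose irreducible characters of `π`-degree have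
  degrees with at most two prime divisors, so that `σ_π(G) ≤ 2`, while the finite set `ρ_π(G)` has
  at least `k` elements.
* Hence there is no function `f` with `|ρ_π(G)| ≤ f(σ_π(G))` for every finite group `G`.
* In particular `|ρ_π(G)| ≤ 3 σ_π(G)` fails for some finite group `G`. -/
theorem result :
    (∀ π : Set ℕ, (∀ q ∈ π, q.Prime) → π.Infinite → 2 ∉ π → 3 ∉ π → 7 ∈ π →
      (∀ k : ℕ, ∃ (G : Type) (_ : Group G) (_ : Finite G),
        (∀ n, IsDeg G n → IsPiNumber π n → n.primeFactors.card ≤ 2) ∧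
          sigmaPi π G ≤ 2 ∧ (rhoPi π G).Finite ∧ k ≤ (rhoPi π G).ncard) ∧
      (¬ ∃ f : ℕ → ℝ, ∀ (G : Type) [Group G] [Finite G],
        ((rhoPi π G).ncard : ℝ) ≤ f (sigmaPi π G)) ∧
      (∃ (G : Type) (_ : Group G) (_ : Finite G), 3 * sigmaPi π G < (rhoPi π G).ncard)) ∧
    ((∀ q ∈ {q : ℕ | q.Prime ∧ 5 ≤ q}, q.Prime) ∧ {q : ℕ | q.Prime ∧ 5 ≤ q}.Infinite ∧
      2 ∉ {q : ℕ | q.Prime ∧ 5 ≤ q} ∧ 3 ∉ {q : ℕ | q.Prime ∧ 5 ≤ q} ∧
      7 ∈ {q : ℕ | q.Prime ∧ 5 ≤ q}) := by
  refine ⟨?_, ?_⟩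
  · intro π hπ hinf h2 h3 h7
    have hmain := exists_group π hπ hinf h2 h3 h7
    refine ⟨hmain, ?_, ?_⟩
    · rintro ⟨f, hf⟩
      obtain ⟨k, hk⟩ := exists_nat_gt (max (f 0) (max (f 1) (f 2)))
      obtain ⟨G, _, _, -, hs, -, hr⟩ := hmain k
      have h1 := hf G
      have h4 : f (sigmaPi π G) ≤ max (f 0) (max (f 1) (f 2)) := by
        interval_cases sigmaPi π G
        · exact le_max_left _ _
        · exact (le_max_left _ _).trans (le_max_right _ _)
        · exact (le_max_right _ _).trans (le_max_right _ _)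
      have h5 : (k : ℝ) ≤ ((rhoPi π G).ncard : ℝ) := by exact_mod_cast hr
      linarith
    · obtain ⟨G, i1, i2, -, hs, -, hr⟩ := hmain 7
      exact ⟨G, i1, i2, by omega⟩
  · refine ⟨fun q hq => hq.1, ?_, ?_, ?_, ?_⟩
    · intro hfin
      obtain ⟨b, hb⟩ := hfin.bddAbove
      obtain ⟨q, hq, hqp⟩ := Nat.exists_infinite_primes (b + 5)
      have := hb (⟨hqp, by omega⟩ : q ∈ {q : ℕ | q.Prime ∧ 5 ≤ q})
      omega
    · rintro ⟨-, h⟩
      omega
    · rintro ⟨-, h⟩
      omega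
    · exact ⟨by norm_num, by norm_num⟩

end Pool.Agent.Results.MP_d028d5_al.RelativeRhoSigma
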